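import Pool.Agent.Helper54.AD.Time

/-!
# Non-parabolic distributional solutions of the advection-diffusion equation on `𝕋²`

There is an autonomous divergence-free field `b ∈ L²(𝕋²)` such that for every `T > 0` the
equation `∂ₜ u + div (b u) = Δ u` has a distributional solution
`u ∈ L^∞([0,T]; L²(𝕋²))` with datum `u₀ ∈ L²(𝕋²)` which is not parabolic.  The definitions are
in `Pool.Agent.Helper54.AD.Defs` (and `dx`, `dy`, `lap`, `cell`, `Periodic2` in
`Pool.Agent.Helper54.AD.Calc`).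

Sketch of the proof.  Let `r = |x|`, `s = 20 - log r`.
* The field is `b = (∂_y ψ, -∂_x ψ)` with `ψ = (4/3) s⁻¹ sin 2θ` times a cut-off; it is in `L²`.
* The odd function `w₀ = r⁻¹ s^(-2/3) (cos θ + (6 s)⁻¹ cos 3θ)` (times a cut-off) is in `L²`
  and solves `Δ w₀ - b · ∇ w₀ = 0` near the origin up to an error `O(r⁻³ s^(-8/3))`.
* For odd `Φ` vanishing near `0` a weighted energy estimate (with weight
  `σ = r⁻² s⁻³`, Wirtinger's inequality on circles and `λ` large) gives
  `∫ T Φ · σ Φ ≥ δ ∫ s² σ² Φ²` for `T Φ = λ Φ - Δ Φ - b · ∇ Φ`; so the error is corrected by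
  duality: there is an odd `v = H / s`, `H ∈ L²`, with `∫ (w₀ + v) T Φ = 0` for these `Φ`.
* A cut-off argument at the origin extends the identity to all smooth periodic `Φ`, and
  `u(t, x) = e^(λ t) (w₀ + v)(x)` is the solution.  Testing with rescaled vector fields
  shows that `w₀ + v` is not in `H¹`.
-/

open Pool.Agent.Helper54.AD

namespace Pool.Agent.Results.MP_fe2fb1_an.NonParabolic

/-- There is an autonomous divergence-free `b ∈ L²(𝕋²)` (in particular
`b ∈ L²([0,T]; L²(𝕋²))`) such that for every `T > 0` there are `u₀ ∈ L²(𝕋²)` and a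
distributional solution `u ∈ L^∞([0,T]; L²(𝕋²))` of `∂ₜ u + div (b u) = Δ u` with datum `u₀`
which does not belong to `L²([0,T]; H¹(𝕋²))`; in fact `u(t, ·) ∉ H¹(𝕋²)` for every `t`. -/
theorem result : ∃ b : ℝ × ℝ → ℝ × ℝ, IsAutonomousField b ∧ ∀ T : ℝ, 0 < T →
    IsField T (fun _ => b) ∧ ∃ (u₀ : ℝ × ℝ → ℝ) (u : ℝ → ℝ × ℝ → ℝ),
      IsDistSolution T (fun _ => b) u₀ u ∧ ¬ InL2H1 T u ∧
        ∀ (t : ℝ) (g₁ g₂ : ℝ × ℝ → ℝ), ¬ WeakGrad (u t) g₁ g₂ :=
  main

end Pool.Agent.Results.MP_fe2fb1_an.NonParabolic
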